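import Mathlib
import Pool.Agent.Lib.BVM.ZFCDef

/-!
# The statement

Predicates for a structure `(M, E)` for the language of set theory (`E x y` is read as `x ∈ y`):
the bounded proper forcing axiom, Aronszajn trees with large families of pairwise almost disjoint
subtrees; and reflecting cardinals.
-/

set_option autoImplicit false

namespace Pool.Agent.BPF

open Pool.Agent.Lib.BVM

section Model
variable {M : Type*} (E : M → M → Prop)

/-- `x ⊆ y` -/
def Sub (x y : M) : Prop := ∀ z, E z x → E z y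

/-- `p = {a, b}` -/
def IsUPair (p a b : M) : Prop := ∀ z, E z p ↔ z = a ∨ z = b

/-- `p = (a, b) = {{a}, {a, b}}` -/
def IsPair (p a b : M) : Prop := ∃ s t, IsUPair E s a a ∧ IsUPair E t a b ∧ IsUPair E p s t

/-- `(a, b) ∈ R` -/
def Rel (R a b : M) : Prop := ∃ p, IsPair E p a b ∧ E p R

/-- `w` contains the empty set and is closed under `x ↦ x ∪ {x}` -/
def IsInductive (w : M) : Prop :=
  (∃ e, E e w ∧ ∀ z, ¬ E z e) ∧ ∀ x, E x w → ∃ s, E s w ∧ ∀ z, E z s ↔ E z x ∨ z = x

/-- `w = ω` -/
def IsOmega (w : M) : Prop := IsInductive E w ∧ ∀ w', IsInductive E w' → Sub E w w'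

/-- `|x| ≤ |y|` or `x = ∅`: some `f` contains, for every `b ∈ y`, at most one pair `(b, a)`, and
every `a ∈ x` is the second component of such a pair -/
def Onto (y x : M) : Prop :=
  ∃ f, (∀ b, E b y → ∀ a a', Rel E f b a → Rel E f b a' → a = a') ∧
    ∀ a, E a x → ∃ b, E b y ∧ Rel E f b a

/-- `x` is countable -/
def Cnt (x : M) : Prop := ∃ w, IsOmega E w ∧ Onto E w x

/-- `x` is an ordinal (a transitive set of transitive sets) -/
def IsOrd (x : M) : Prop := (∀ y, E y x → Sub E y x) ∧ ∀ y, E y x → ∀ z, E z y → Sub E z y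

/-- `o = ω₁`: an uncountable ordinal, all elements of which are countable -/
def IsOmega1 (o : M) : Prop := IsOrd E o ∧ ¬ Cnt E o ∧ ∀ x, E x o → Cnt E x

/-! ### Complete Boolean algebras and properness

`q` is the underlying set, `r` the partial order (a set of ordered pairs). -/

/-- `x ≤ y` -/
def Le (r x y : M) : Prop := Rel E r x y

/-- `r` is a partial order of `q` -/
def IsPO (q r : M) : Prop :=
  (∀ x, E x q → Le E r x x) ∧
  (∀ x y, E x q → E y q → Le E r x y → Le E r y x → x = y) ∧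
  ∀ x y z, E x q → E y q → E z q → Le E r x y → Le E r y z → Le E r x z

/-- `u` is the least upper bound of the subset `s` of `q` -/
def IsSup (q r s u : M) : Prop :=
  E u q ∧ (∀ x, E x s → Le E r x u) ∧ ∀ v, E v q → (∀ x, E x s → Le E r x v) → Le E r u v

/-- `u` is the greatest lower bound of the subset `s` of `q` -/
def IsInf (q r s u : M) : Prop :=
  E u q ∧ (∀ x, E x s → Le E r u x) ∧ ∀ v, E v q → (∀ x, E x s → Le E r v x) → Le E r v u

/-- `u = x ∨ y` -/
def IsJoin (q r x y u : M) : Prop := ∃ s, IsUPair E s x y ∧ IsSup E q r s u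

/-- `u = x ∧ y` -/
def IsMeet (q r x y u : M) : Prop := ∃ s, IsUPair E s x y ∧ IsInf E q r s u

/-- `(q, r)` is a complete Boolean algebra: a partial order in which all subsets have a least upper
bound and a greatest lower bound, which is distributive, and in which every element has a
complement -/
def IsCBA (q r : M) : Prop :=
  IsPO E q r ∧
  (∀ s, Sub E s q → (∃ u, IsSup E q r s u) ∧ ∃ u, IsInf E q r s u) ∧
  (∀ x y z u v w a b, E x q → E y q → E z q → IsJoin E q r y z u → IsMeet E q r x u v →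
    IsMeet E q r x y a → IsMeet E q r x z b → IsJoin E q r a b w → v = w) ∧
  ∀ x, E x q → ∃ y o i, E y q ∧ IsMeet E q r x y o ∧ IsJoin E q r x y i ∧
    (∀ z, E z q → Le E r o z) ∧ ∀ z, E z q → Le E r z i

/-- `x` is a condition: an element of `q` which is not the least element -/
def Pos (q r x : M) : Prop := E x q ∧ ∃ y, E y q ∧ ¬ Le E r x y

/-- the conditions `x`, `y` are compatible -/
def Comp (q r x y : M) : Prop := ∃ z, Pos E q r z ∧ Le E r z x ∧ Le E r z y

/-- `d` is a dense set of conditions -/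
def IsDense (q r d : M) : Prop :=
  (∀ x, E x d → Pos E q r x) ∧ ∀ x, Pos E q r x → ∃ y, E y d ∧ Le E r y x

/-- `a` is a maximal antichain of conditions -/
def IsMaxAntichain (q r a : M) : Prop :=
  (∀ x, E x a → Pos E q r x) ∧ (∀ x y, E x a → E y a → x ≠ y → ¬ Comp E q r x y) ∧
    ∀ x, Pos E q r x → ∃ y, E y a ∧ Comp E q r x y

/-- `z = q ∪ P(q)` -/
def IsZ (q z : M) : Prop := ∀ x, E x z ↔ E x q ∨ Sub E x q

/-- `u` is the union of `d` -/
def IsUnion (d u : M) : Prop := ∀ x, E x u ↔ ∃ c, E c d ∧ E x c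

/-- `c` is a closed unbounded set of countable subsets of `z` -/
def IsClubE (z c : M) : Prop :=
  (∀ x, E x c → Sub E x z ∧ Cnt E x) ∧
  (∀ x, Sub E x z → Cnt E x → ∃ y, E y c ∧ Sub E x y) ∧
  ∀ d, Sub E d c → Cnt E d → (∃ x, E x d) → (∀ x y, E x d → E y d → Sub E x y ∨ Sub E y x) →
    ∃ u, IsUnion E d u ∧ E u c

/-- the condition `p` is `(n, q)`-generic: for every dense set `d ∈ n`, the set `d ∩ n` is predense
below `p` -/
def IsGen (q r n p : M) : Prop :=
  ∀ d, E d n → IsDense E q r d → ∀ x, Pos E q r x → Le E r x p →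
    ∃ y, E y d ∧ E y n ∧ Comp E q r y x

/-- The set of conditions of `(q, r)` is a proper forcing notion: for club many countable subsets
`n` of `q ∪ P(q)`, all conditions `p ∈ n` can be extended to an `(n, q)`-generic condition. -/
def IsProper (q r : M) : Prop :=
  ∃ z c, IsZ E q z ∧ IsClubE E z c ∧
    ∀ n, E n c → ∀ p, Pos E q r p → E p n → ∃ p', Pos E q r p' ∧ Le E r p' p ∧ IsGen E q r n p'

/-- `g` is a filter of `(q, r)` -/
def IsFilt (q r g : M) : Prop :=
  (∀ x, E x g → Pos E q r x) ∧ (∀ x y, E x g → E y q → Le E r x y → E y g) ∧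
    ∀ x y, E x g → E y g → ∃ z, E z g ∧ Le E r z x ∧ Le E r z y

/-- **BPFA** in the form of Goldstern and Shelah: for every complete Boolean algebra `(q, r)` with
`0 ≠ 1` and a proper set of conditions, and for all families `(A_i)_{i < ω₁}` of maximal antichains of
cardinality at most `ℵ₁`, `A_i = {x | (i, x) ∈ a}`, there is a filter which meets all `A_i`. -/
def BPFA : Prop :=
  ∀ q r o a, IsCBA E q r → (∃ x, Pos E q r x) → IsProper E q r → IsOmega1 E o →
    (∀ i, E i o → ∃ s, (∀ x, E x s ↔ Rel E a i x) ∧ IsMaxAntichain E q r s ∧ Onto E o s) →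
    ∃ g, IsFilt E q r g ∧ ∀ i, E i o → ∃ x, E x g ∧ Rel E a i x

/-! ### Trees -/

/-- `(t, r)` is an `ω₁`-tree, and `l` is its height function: `r` is a strict partial order of `t`;
for every `y ∈ t` of height `i` and `j < i` there is exactly one `x < y` of height `j`; all levels
are countable and nonempty. -/
def IsTree (o t r l : M) : Prop :=
  (∀ x, E x t → ¬ Rel E r x x) ∧
  (∀ x y z, E x t → E y t → E z t → Rel E r x y → Rel E r y z → Rel E r x z) ∧
  (∀ x, E x t → ∃! i, E i o ∧ Rel E l x i) ∧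
  (∀ x y i j, E x t → E y t → E i o → E j o → Rel E r x y → Rel E l x i → Rel E l y j → E i j) ∧
  (∀ y i j, E y t → E i o → Rel E l y i → E j i → ∃! x, E x t ∧ Rel E r x y ∧ Rel E l x j) ∧
  ∀ i, E i o → ∃ s, (∃ x, E x s) ∧ Cnt E s ∧ ∀ x, E x s ↔ E x t ∧ Rel E l x i

/-- `(t, r)` is an Aronszajn tree: moreover all chains are countable. -/
def IsAronszajn (o t r l : M) : Prop :=
  IsTree E o t r l ∧
  ∀ c, Sub E c t → (∀ x y, E x c → E y c → x = y ∨ Rel E r x y ∨ Rel E r y x) → Cnt E c

/-- `u` is a subtree of `(t, r)`: uncountable and closed downwards -/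
def IsSubtree (t r u : M) : Prop :=
  Sub E u t ∧ ¬ Cnt E u ∧ ∀ x y, E x t → E y u → Rel E r x y → E x u

/-- `u ∩ v` is countable -/
def AD (u v : M) : Prop := ∀ i, (∀ z, E z i ↔ E z u ∧ E z v) → Cnt E i

/-- There are an Aronszajn tree and a family `s` of pairwise almost disjoint subtrees of it, of
cardinality at least `ℵ₂` (there is no map of `ω₁` onto `s`). -/
def NotSaturated : Prop :=
  ∃ o t r l s, IsOmega1 E o ∧ IsAronszajn E o t r l ∧ (∀ u, E u s → IsSubtree E t r u) ∧
    (∀ u v, E u s → E v s → u ≠ v → AD E u v) ∧ ¬ Onto E o s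

end Model

/-! ### Reflecting cardinals -/

open ZFSet in
/-- the membership relation of `V_β` -/
def memV (β : Ordinal.{0}) (x y : {x : ZFSet.{0} // x ∈ V_ β}) : Prop := x.1 ∈ y.1

open ZFSet in
/-- `κ` is a reflecting cardinal: `κ` is regular and uncountable, and for all `a ∈ V_κ` and all
formulas `φ`, if `φ(a)` holds in some `V_β`, then `φ(a)` holds in some `V_β'` with `β' < κ`. -/
structure Reflecting (κ : Cardinal.{0}) : Prop where
  regular : κ.IsRegular
  uncountable : Cardinal.aleph0 < κ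
  reflect : ∀ (φ : Fm) (a : ZFSet.{0}), a ∈ V_ κ.ord →
    (∃ (β : Ordinal.{0}) (h : a ∈ V_ β), sat (memV β) φ (fun _ => ⟨a, h⟩)) →
    ∃ β < κ.ord, ∃ h : a ∈ V_ β, sat (memV β) φ (fun _ => ⟨a, h⟩)

end Pool.Agent.BPF
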