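import Pool.Agent.Lib.MP_11349d_lc.Ifc

/-!
# The filtration: definitions

`B` is a complete Boolean algebra, `S a` (`a : O`) an increasing sequence of complete subalgebras. Names
of elements and subsets of ground model sets are functions into `B`; `⟦φ⟧` is written as an element of
`B`. `M : Set O` is a countable set of codes (a model); `∀ᶠ M in club` replaces elementary submodels.
-/

set_option autoImplicit false

namespace Pool.Agent.BPF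

open Cardinal

/-- `O` is a well order of type `κ`, `κ > ℵ₁` strongly inaccessible -/
structure IsKap (O : Type) [LinearOrder O] : Prop where
  bdd : ∀ s : Set O, #s < #O → ∃ b, ∀ x ∈ s, x < b
  iio : ∀ b : O, #(Set.Iio b) < #O
  pow : ∀ c < #O, (2 : Cardinal.{0}) ^ c < #O
  om1 : ℵ₁ < #O

section order
variable {O : Type} [LinearOrder O]

/-- limit elements -/
def Lm (a : O) : Prop := (∃ c, c < a) ∧ ∀ c < a, ∃ d, c < d ∧ d < a

/-- `a'` is the successor of `a` -/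
def Sc (a a' : O) : Prop := a < a' ∧ ∀ c, a < c → a' ≤ c

end order

/-- names of subsets of the `k`-dimensional tree -/
abbrev Nm (Ω B : Type) (k : ℕ) : Type := Ω → (Fin k → ℕ) → B

/-- side conditions: the level `d`, the countable set `Set.range N` of codes (`N` plays the role of a
model with `N ∩ ω₁ = d`), the name `Y` of a subset of level `d` of the tree -/
structure Side (O Ω B : Type) where
  d : Ω
  N : ℕ → O
  Y : ℕ → B

/-- `(b, w, m)` -/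
structure Cnd (O Ω B : Type) where
  b : B
  w : Finset (Ω × Ω × ℕ)
  m : Finset (Side O Ω B)

/-- the order of the conditions -/
def Cnd.le {O Ω B : Type} [LE B] (a' a : Cnd O Ω B) : Prop := a'.b ≤ a.b ∧ a.w ⊆ a'.w ∧ a.m ⊆ a'.m

/-- `S a`: the subalgebras; `U a` (`a` limit): the subtree added at stage `a`; codes `o`, `n`, `s` of
elements of `Ω`, of names of trees, of side conditions -/
structure Dat (O Ω B : Type) where
  S : O → Set B
  U : O → Ω → ℕ → B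
  o : Ω → O
  n : (k : ℕ) → Nm Ω B k → O
  s : Side O Ω B → O

namespace LTree
variable {Ω : Type} [LinearOrder Ω] (T : LTree Ω)

/-- restriction of `k`-tuples of level `η` to level `ξ` -/
def res {k : ℕ} (ξ η : Ω) (s : Fin k → ℕ) : Fin k → ℕ := fun i => T.r ξ η (s i)

/-- `s` at level `ξ` and `s'` at level `η` are comparable -/
def cmp {k : ℕ} (ξ : Ω) (s : Fin k → ℕ) (η : Ω) (s' : Fin k → ℕ) : Prop :=
  (ξ ≤ η ∧ T.res ξ η s' = s) ∨ (η ≤ ξ ∧ T.res η ξ s = s')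

end LTree

section
variable {O Ω B : Type} [LinearOrder O] [LinearOrder Ω] [OrderBot O] [OrderBot Ω]
  [CompleteBooleanAlgebra B] (T : LTree Ω) (D : Dat O Ω B)

/-- `V ⊆ W` -/
def Sb {k : ℕ} (V W : Nm Ω B k) : B := ⨅ ξ, ⨅ s, (V ξ s ⇨ W ξ s)

/-- `W` is closed downwards (outright) -/
def Tr {k : ℕ} (W : Nm Ω B k) : Prop := ∀ ξ η s, ξ ≤ η → W η s ≤ W ξ (T.res ξ η s)

/-- `W` is a tree, has elements on all levels, and all elements of `W` have extensions on all higher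
levels -/
def Prn {k : ℕ} (W : Nm Ω B k) : B :=
  (⨅ ξ, ⨆ s, W ξ s) ⊓ (⨅ ξ, ⨅ η, ⨅ _ : ξ ≤ η, ⨅ s, (W η s ⇨ W ξ (T.res ξ η s))) ⊓
    ⨅ ξ, ⨅ η, ⨅ _ : ξ ≤ η, ⨅ s, (W ξ s ⇨ ⨆ s', ⨆ _ : T.res ξ η s' = s, W η s')

open Classical in
/-- the elements of `W` comparable with the element `s` of level `ξ` -/
noncomputable def cone {k : ℕ} (W : Nm Ω B k) (ξ : Ω) (s : Fin k → ℕ) : Nm Ω B k :=
  fun η s' => if T.cmp ξ s η s' then W η s' else ⊥

/-- `C` is a big tree, almost disjoint from the subtrees `U c`, `c < a` -/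
def Perp (a : O) (C : Ω → ℕ → B) : B :=
  (⨅ ξ, ⨆ n, C ξ n) ⊓ (⨅ ξ, ⨅ η, ⨅ _ : ξ ≤ η, ⨅ n, (C η n ⇨ C ξ (T.r ξ η n))) ⊓
    ⨅ c, ⨅ _ : Lm c ∧ c < a, ⨆ ξ, ⨅ n, (C ξ n ⊓ D.U c ξ n)ᶜ

/-- `W ⊆ C × ... × C` -/
def SbP {k : ℕ} (W : Nm Ω B k) (C : Ω → ℕ → B) : B := ⨅ ξ, ⨅ s, (W ξ s ⇨ ⨅ i, C ξ (s i))

/-- `W` is large (`a` not a limit): pruned, and contained in a power of an element of `F_a^⊥` -/
def Lg (a : O) {k : ℕ} (W : Nm Ω B k) : B :=
  Prn T W ⊓ ⨆ C : Ω → ℕ → B, ⨆ _ : ∀ ξ n, C ξ n ∈ D.S a, Perp T D a C ⊓ SbP W C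

/-- `W` is a name in `S a` -/
def InS (a : O) {k : ℕ} (W : Nm Ω B k) : Prop := ∀ ξ s, W ξ s ∈ D.S a

/-- the code of `W` belongs to `x` -/
def Mem (x : Side O Ω B) {k : ℕ} (W : Nm Ω B k) : Prop := D.n k W ∈ Set.range x.N

/-- `x` is a correct side condition for stage `a` (`h` bounds the codes) -/
structure IsMdl (a h : O) (x : Side O Ω B) : Prop where
  lt : ∀ n, x.N n < h
  om : ∀ ξ, D.o ξ ∈ Set.range x.N ↔ ξ < x.d
  pos : ⊥ < x.d
  bot : ⊥ ∈ Set.range x.N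
  top : ∀ k, Mem D x (fun _ _ => ⊤ : Nm Ω B k)
  cone : ∀ k (W : Nm Ω B k) ξ s, InS D a W → Mem D x W → ξ < x.d → Mem D x (cone T W ξ s)
  Y : ∀ n, x.Y n ∈ D.S a

/-- `b` forces that the side condition `x` is nice at stage `a` -/
structure Nice (a : O) (x : Side O Ω B) (b : B) : Prop where
  y0 : ∀ c ∈ Set.range x.N, Lm c → c < a → ∀ n, b ⊓ x.Y n ⊓ D.U c x.d n = ⊥
  y1 : ∀ (k : ℕ) (W : Nm Ω B k), Mem D x W → InS D a W → Tr T W → ∀ t : Fin k → ℕ,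
    b ⊓ (⨅ i, x.Y (t i)) ⊓ (⨅ ξ, ⨅ _ : ξ < x.d, W ξ (T.res ξ x.d t)) ≤
      ⨆ c, ⨆ _ : c ∈ Set.range x.N ∧ ¬ Lm c ∧ c < a, ⨆ V : Nm Ω B k, ⨆ _ : Mem D x V ∧ InS D c V,
        Lg T D c V ⊓ Sb V W
  y2 : ∀ c ∈ Set.range x.N, ¬ Lm c → c < a → ∀ (k : ℕ) (V : Nm Ω B k), Mem D x V → InS D c V →
    ∀ e : Finset ℕ, b ⊓ Lg T D c V ≤
      ⨆ y : Fin k → ℕ, ⨆ _ : ∀ i, y i ∉ e, V x.d y ⊓ ⨅ i, x.Y (y i)

/-- `x` belongs to `y` -/
structure Blw (x y : Side O Ω B) : Prop where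
  mem : D.s x ∈ Set.range y.N
  sub : Set.range x.N ⊆ Set.range y.N
  lt : x.d < y.d

/-- the conditions of the forcing at the limit stage `a` -/
structure PD (a h : O) (p : Cnd O Ω B) : Prop where
  b : p.b ∈ D.S a
  ne : p.b ≠ ⊥
  mdl : ∀ x ∈ p.m, IsMdl T D a h x
  nice : ∀ x ∈ p.m, Nice T D a x p.b
  chain : ∀ x ∈ p.m, ∀ y ∈ p.m, x = y ∨ Blw D x y ∨ Blw D y x
  res : ∀ v ∈ p.w, ∀ x ∈ p.m, v.1 < x.d → x.d ≤ v.2.1 → p.b ≤ x.Y (T.r x.d v.2.1 v.2.2)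

/-- the codes needed at stage `a` are below `h` -/
structure Bd (a h : O) : Prop where
  lt : a < h
  o : ∀ ξ, D.o ξ < h
  n : ∀ k (W : Nm Ω B k), InS D a W → D.n k W < h
  s : ∀ x : Side O Ω B, (∀ n, x.N n < h) → (∀ n, x.Y n ∈ D.S a) → D.s x < h

/-- projection to `S a` -/
noncomputable def pr (a : O) (b : B) : B := sInf {c | c ∈ D.S a ∧ b ≤ c}

end

end Pool.Agent.BPF
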