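import Pool.Agent.Lib.MP_11349d_lc.Defs
import Pool.Agent.Lib.CSI.Club

/-!
# The filtration: structure, genericity, the induction hypothesis

`Flt T` collects what the construction of the iteration (PART I) provides. `F.Gen a M q`: `q` is
`(M, S a)`-generic. `F.IH a c M`: the main statement for the model `M` (a set of codes).
-/

set_option autoImplicit false

namespace Pool.Agent.BPF

open Cardinal Pool.Agent.CSI

/-- the iteration as an increasing sequence of complete subalgebras of one complete Boolean algebra -/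
structure Flt {O Ω B : Type} [LinearOrder O] [WellFoundedLT O] [LinearOrder Ω] [WellFoundedLT Ω]
    [OrderBot O] [OrderBot Ω] [CompleteBooleanAlgebra B] (T : LTree Ω) extends Dat O Ω B where
  /-- bound of the codes at the limit stages -/
  h : O → O
  /-- the dense embedding of the conditions at the limit stage `a` into `S (a + 1)` -/
  j : O → Cnd O Ω B → B
  /-- codes of elements of `B`, of one-dimensional names, of small subsets of `B`, of conditions -/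
  cb : B → O
  ct : (Ω → ℕ → B) → O
  cS : Set B → O
  cc : Cnd O Ω B → O
  o_inj : Function.Injective toDat.o
  n_inj : ∀ k, Function.Injective (toDat.n k)
  s_inj : Function.Injective toDat.s
  cb_inj : Function.Injective cb
  ct_inj : Function.Injective ct
  cS_inj : Set.InjOn cS {E | #E < #O}
  cc_inj : Function.Injective cc
  /-- complete subalgebras -/
  sup_mem : ∀ a E, E ⊆ toDat.S a → sSup E ∈ toDat.S a
  compl_mem : ∀ a b, b ∈ toDat.S a → bᶜ ∈ toDat.S a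
  mono : ∀ a c, a ≤ c → toDat.S a ⊆ toDat.S c
  small : ∀ a, #(toDat.S a) < #O
  total : ∀ b, ∃ a, b ∈ toDat.S a
  bot : ∀ b ∈ toDat.S ⊥, b = ⊥ ∨ b = ⊤
  ntriv : (⊥ : B) ≠ ⊤
  /-- the chain condition -/
  cc' : ∀ E : Set B, ∃ E' ⊆ E, #E' < #O ∧ sSup E' = sSup E
  /-- limits: the infima of threads are dense -/
  det : ∀ a, Lm a → ∀ x ∈ toDat.S a, x ≠ ⊥ → ∃ y ∈ toDat.S a, y ≠ ⊥ ∧ y ≤ x ∧
    ∃ c : ℕ → O, (∀ n, c n < a) ∧ ⨅ n, pr toDat (c n) y ≤ y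
  /-- limits: all threads have an infimum with the correct projections -/
  thr : ∀ (c : ℕ → O) (q : ℕ → B), StrictMono c → (∀ n, q n ∈ toDat.S (c n)) →
    (∀ n, pr toDat (c n) (q (n + 1)) = q n) → pr toDat (c 0) (⨅ n, q n) = q 0
  /-- limit stages: `S (a + 1)` is the completion of the conditions -/
  bd : ∀ a, Lm a → Bd toDat a (h a)
  j_mem : ∀ a a' p, Lm a → Sc a a' → PD T toDat a (h a) p → j a p ∈ toDat.S a'
  j_mono : ∀ a p p', Lm a → PD T toDat a (h a) p → PD T toDat a (h a) p' → p'.le p → j a p' ≤ j a p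
  j_cpt : ∀ a p p', Lm a → PD T toDat a (h a) p → PD T toDat a (h a) p' → j a p ⊓ j a p' ≠ ⊥ →
    ∃ p'', PD T toDat a (h a) p'' ∧ p''.le p ∧ p''.le p'
  j_dns : ∀ a a', Lm a → Sc a a' → ∀ x ∈ toDat.S a', x ≠ ⊥ → ∃ p, PD T toDat a (h a) p ∧ j a p ≤ x
  j_pr : ∀ a p, Lm a → PD T toDat a (h a) p → pr toDat a (j a p) = p.b
  U_def : ∀ a ξ n, Lm a → toDat.U a ξ n = ⨆ p, ⨆ _ : PD T toDat a (h a) p ∧ ∃ v ∈ p.w, v.1 = ⊥ ∧
    ξ ≤ v.2.1 ∧ T.r ξ v.2.1 v.2.2 = n, j a p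
  /-- the other stages: relative properness -/
  prp : ∀ a a', ¬ Lm a → Sc a a' → ∀ᶠ M in clubF O, ∀ p ∈ toDat.S a', cb p ∈ M → ∀ q ∈ toDat.S a,
    q ≠ ⊥ → q ≤ pr toDat a p →
    (∀ E ⊆ toDat.S a, cS E ∈ M → q ⊓ sSup E ≤ sSup {e | e ∈ E ∧ cb e ∈ M}) →
    ∃ r ∈ toDat.S a', r ≠ ⊥ ∧ r ≤ p ∧ r ≤ q ∧
      ∀ E ⊆ toDat.S a', cS E ∈ M → r ⊓ sSup E ≤ sSup {e | e ∈ E ∧ cb e ∈ M}
  /-- the other stages: bookkeeping -/
  bk : ∀ (c : Finset (Ω × Ω) → B) (b : B) (g : O), b ≠ ⊥ → ∃ a, g ≤ a ∧ ¬ Lm a ∧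
    ((∀ s, c s ∈ toDat.S a) → ∀ hb : b ∈ toDat.S a, ∀ hne : b ≠ ⊥,
      (∃ A, HasExt {x : B // x ∈ toDat.S a ∧ x ≠ ⊥} (fun s => {p | p.1 ≤ c s}) ⟨b, hb, hne⟩ A) →
      ∃ G : Ω → Ω → B, (∀ ξ, b ≤ ⨆ η, G ξ η) ∧ (∀ ξ η η', η ≠ η' → G ξ η ⊓ G ξ η' = ⊥) ∧
        ∀ s : Finset (Ω × Ω), b ⊓ ⨅ x ∈ s, G x.1 x.2 ≤ c s)

namespace Flt

variable {O Ω B : Type} [LinearOrder O] [WellFoundedLT O] [LinearOrder Ω] [WellFoundedLT Ω]
    [OrderBot O] [OrderBot Ω] [CompleteBooleanAlgebra B] {T : LTree Ω}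
    (F : Flt (O := O) (B := B) T)

/-- the conditions at the limit stage `a` -/
abbrev PD (a : O) (p : Cnd O Ω B) : Prop := BPF.PD T F.toDat a (F.h a) p

/-- projection -/
noncomputable abbrev pr (a : O) (b : B) : B := BPF.pr F.toDat a b

/-- `q` is `(M, S a)`-generic -/
def Gen (a : O) (M : Set O) (q : B) : Prop :=
  ∀ E ⊆ F.S a, F.cS E ∈ M → q ⊓ sSup E ≤ sSup {e | e ∈ E ∧ F.cb e ∈ M}

/-- the finite subset `y` of level `d` is captured at stage `a` -/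
noncomputable def Cap (a : O) (M : Set O) (d : Ω) (y : Finset ℕ) : B :=
  ⨆ C : Ω → ℕ → B, ⨆ _ : F.ct C ∈ M ∧ ∀ ξ n, C ξ n ∈ F.S a, Perp T F.toDat a C ⊓ ⨅ n ∈ y, C d n

/-- the side condition given by the model `M` at stage `a` -/
structure IsSide (a : O) (M : Set O) (x : Side O Ω B) : Prop where
  N : Set.range x.N = {z | z ∈ M ∧ z < F.h a}
  om : ∀ ξ, F.o ξ ∈ M ↔ ξ < x.d
  Y : ∀ n, x.Y n ∈ F.S a

/-- the main statement, for the model `M` -/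
def IHM (a c : O) (M : Set O) : Prop :=
  ∀ d : Ω, (∀ ξ, F.o ξ ∈ M ↔ ξ < d) → ∀ p ∈ F.S c, F.cb p ∈ M → ∀ y : Finset ℕ, ∀ q ∈ F.S a, q ≠ ⊥ →
    q ≤ F.pr a p → F.Gen a M q → q ≤ F.Cap a M d y →
    (¬ Lm c → ∃ r ∈ F.S c, r ≠ ⊥ ∧ r ≤ p ∧ r ≤ q ∧ F.Gen c M r ∧ r ≤ F.Cap c M d y) ∧
    (Lm c → ∃ r ∈ F.S c, r ≠ ⊥ ∧ r ≤ p ∧ r ≤ q ∧ F.Gen c M r ∧
      ∃ x, F.IsSide c M x ∧ Nice T F.toDat c x r ∧ ∀ n ∈ y, r ≤ x.Y n)

/-- the main statement -/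
def IH (a c : O) : Prop := ∀ᶠ M in clubF O, F.IHM a c M

end Flt

end Pool.Agent.BPF
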