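import Pool.Agent.Lib.MP_11349d_lc.Ifc

/-!
# Free: many tuples with constant values of `f` contain pairwise free tuples

Let `x i` be a `k`-tuple of elements of level `ξ i`, with `ξ` strictly increasing and
`f (x i j) = n j` for all `i`. For `m < m' < l`, a node cannot be above both `x m j` and `x m' j` (these
are incomparable, because `f` is injective on chains). So for given `l` at most `k ^ 2` indices `m < l`
are in conflict with `l`, and successively taking the largest index and removing its conflicts gives
`N` indices without conflicts out of `N * (k ^ 2 + 1)`.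
-/

set_option autoImplicit false

namespace Pool.Agent.BPF

variable {Ω : Type} [LinearOrder Ω]

/-- the tuple `x` of level `ξ` and the restriction of the tuple `y` of level `η` have a common
element -/
def Meets (T : LTree Ω) {k : ℕ} (ξ : Ω) (x : Fin k → ℕ) (η : Ω) (y : Fin k → ℕ) : Prop :=
  ∃ i j, T.r ξ η (y i) = x j

theorem free_aux (T : LTree Ω) {k R : ℕ} {ξ : Fin R → Ω} (hξ : StrictMono ξ)
    {x : Fin R → Fin k → ℕ} {n : Fin k → ℕ} (hf : ∀ i j, T.f (ξ i) (x i j) = n j) :
    ∀ (N : ℕ) (A : Finset (Fin R)), N * (k ^ 2 + 1) ≤ A.card →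
      ∃ I ⊆ A, I.card = N ∧ ∀ m ∈ I, ∀ l ∈ I, m < l → ¬ Meets T (ξ m) (x m) (ξ l) (x l) := by
  classical
  intro N
  induction N with
  | zero => exact fun A _ => ⟨∅, by simp, by simp, by simp⟩
  | succ N ih =>
    intro A hA
    have hne : A.Nonempty := by
      rw [← Finset.card_pos]
      exact lt_of_lt_of_le (by positivity) hA
    set l := A.max' hne with hl
    have hlA : l ∈ A := A.max'_mem hne
    set Bad := A.filter (fun m => m < l ∧ Meets T (ξ m) (x m) (ξ l) (x l)) with hBad
    have hcard : Bad.card ≤ k ^ 2 := by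
      have hch : ∀ m ∈ Bad, ∃ p : Fin k × Fin k, T.r (ξ m) (ξ l) (x l p.1) = x m p.2 := by
        intro m hm
        obtain ⟨i, j, hij⟩ := (Finset.mem_filter.1 hm).2.2
        exact ⟨(i, j), hij⟩
      choose g hg using hch
      have key : ∀ (m : Fin R) (hm : m ∈ Bad) (m' : Fin R) (hm' : m' ∈ Bad),
          g m hm = g m' hm' → ¬ m < m' := by
        intro m hm m' hm' hgm hlt
        have h1 := hg m hm
        have h2 := hg m' hm'
        rw [← hgm] at h2
        have hlt' : m' < l := (Finset.mem_filter.1 hm').2.1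
        have h3 : T.r (ξ m) (ξ m') (x m' (g m hm).2) = x m (g m hm).2 := by
          rw [← h2, T.r_comp _ _ _ _ (hξ hlt).le (hξ hlt').le, h1]
        have h4 := T.f_ne (ξ m) (ξ m') (x m' (g m hm).2) (hξ hlt)
        rw [h3, hf, hf] at h4
        exact h4 rfl
      have hinj : Function.Injective fun m : {m // m ∈ Bad} => g m.1 m.2 := by
        intro m m' hgm
        apply Subtype.ext
        rcases lt_trichotomy m.1 m'.1 with h | h | h
        · exact absurd h (key _ _ _ _ hgm)
        · exact h
        · exact absurd h (key _ _ _ _ hgm.symm)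
      have := Fintype.card_le_of_injective _ hinj
      simpa [sq] using this
    have hA' : N * (k ^ 2 + 1) ≤ ((A.erase l) \ Bad).card := by
      have h1 : (A.erase l).card = A.card - 1 := Finset.card_erase_of_mem hlA
      have h2 : (A.erase l).card - Bad.card ≤ ((A.erase l) \ Bad).card := Finset.le_card_sdiff _ _
      have h3 : (N + 1) * (k ^ 2 + 1) = N * (k ^ 2 + 1) + (k ^ 2 + 1) := by ring
      omega
    obtain ⟨I, hI, hIc, hIf⟩ := ih _ hA'
    have hlI : l ∉ I := fun h => by
      have := hI h
      simp at this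
    refine ⟨insert l I, ?_, ?_, ?_⟩
    · refine Finset.insert_subset hlA (hI.trans ?_)
      exact Finset.sdiff_subset.trans (Finset.erase_subset _ _)
    · rw [Finset.card_insert_of_notMem hlI, hIc]
    · intro m hm l' hl' hlt
      have hmax : ∀ z ∈ I, z < l := by
        intro z hz
        have hz' := hI hz
        rw [Finset.mem_sdiff, Finset.mem_erase] at hz'
        exact lt_of_le_of_ne (A.le_max' z hz'.1.2) hz'.1.1
      rcases Finset.mem_insert.1 hm with rfl | hm
      · rcases Finset.mem_insert.1 hl' with h | hl'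
        · exact absurd hlt (by rw [h]; exact lt_irrefl _)
        · exact absurd hlt (not_lt.2 (hmax l' hl').le)
      · rcases Finset.mem_insert.1 hl' with h | hl'
        · rw [h]
          intro hM
          have hz' := hI hm
          rw [Finset.mem_sdiff, Finset.mem_erase] at hz'
          exact hz'.2 (Finset.mem_filter.2 ⟨hz'.1.2, hmax m hm, hM⟩)
        · exact hIf m hm l' hl' hlt

/-- `N * (k ^ 2 + 1)` tuples contain `N` pairwise free ones -/
theorem free_tuples (T : LTree Ω) {k R N : ℕ} (hR : N * (k ^ 2 + 1) ≤ R) {ξ : Fin R → Ω}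
    (hξ : StrictMono ξ) {x : Fin R → Fin k → ℕ} {n : Fin k → ℕ}
    (hf : ∀ i j, T.f (ξ i) (x i j) = n j) :
    ∃ e : Fin N → Fin R, StrictMono e ∧ ∀ m l, m < l →
      ¬ Meets T (ξ (e m)) (x (e m)) (ξ (e l)) (x (e l)) := by
  obtain ⟨I, _, hI, hf'⟩ := free_aux T hξ hf N Finset.univ (by simpa using hR)
  refine ⟨I.orderEmbOfFin hI, (I.orderEmbOfFin hI).strictMono, fun m l hml => ?_⟩
  exact hf' _ (I.orderEmbOfFin_mem hI m) _ (I.orderEmbOfFin_mem hI l)
    ((I.orderEmbOfFin hI).strictMono hml)

/-- of `N` tuples of level `δ` which extend pairwise free tuples, one avoids a given set with fewer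
than `N` elements -/
theorem exists_avoid (T : LTree Ω) {k N : ℕ} {ξ : Fin N → Ω} {δ : Ω} (hξ : StrictMono ξ)
    (hδ : ∀ i, ξ i ≤ δ) {x : Fin N → Fin k → ℕ}
    (hx : ∀ m l, m < l → ¬ Meets T (ξ m) (x m) (ξ l) (x l)) {y : Fin N → Fin k → ℕ}
    (hy : ∀ m i, T.r (ξ m) δ (y m i) = x m i) {a : Finset ℕ} (ha : a.card < N) :
    ∃ m, ∀ i, y m i ∉ a := by
  by_contra h
  have h' : ∀ m, ∃ i, y m i ∈ a := by
    intro m
    by_contra hm
    exact h ⟨m, fun i hi => hm ⟨i, hi⟩⟩
  choose g hg using h'
  have hinj : Function.Injective fun m => y m (g m) := by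
    have key : ∀ m l, m < l → y m (g m) ≠ y l (g l) := by
      intro m l hml he
      refine hx m l hml ⟨g l, g m, ?_⟩
      rw [← hy l, T.r_comp _ _ _ _ (hξ hml).le (hδ l), ← he, hy]
    intro m l he
    rcases lt_trichotomy m l with h | h | h
    · exact absurd he (key m l h)
    · exact h
    · exact absurd he.symm (key l m h)
  have := Finset.card_le_card_of_injOn (s := (Finset.univ : Finset (Fin N))) (t := a)
    (fun m => y m (g m)) (fun m _ => hg m) hinj.injOn
  simp at this
  omega

end Pool.Agent.BPF
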