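import Pool.Agent.Lib.MP_11349d_lc.Sub

/-!
# Genericity for families
-/

set_option autoImplicit false

namespace Pool.Agent.BPF

open Cardinal Pool.Agent.CSI

namespace Flt

variable {O Ω B : Type} [LinearOrder O] [WellFoundedLT O] [LinearOrder Ω] [WellFoundedLT Ω]
    [OrderBot O] [OrderBot Ω] [CompleteBooleanAlgebra B] {T : LTree Ω}
    (F : Flt (O := O) (B := B) T)

/-- a generic condition below the supremum of a family `f ∈ M` is below the supremum over `M` -/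
theorem ev_iSup {X : Type} (c : X → O) (f : X → B) :
    ∀ᶠ M in clubF O, ∀ a, (∀ x, f x ∈ F.S a) → ∀ q, F.Gen a M q →
      q ⊓ ⨆ x, f x ≤ ⨆ x, ⨆ _ : c x ∈ M, f x := by
  filter_upwards [ev_mem (F.cS (Set.range f)),
    ev_rel (A := Set.univ) F.cb_inj.injOn c (fun e x => f x = e)] with M h1 h2 a ha q hq
  have hE : Set.range f ⊆ F.S a := by rintro _ ⟨x, rfl⟩; exact ha x
  refine (hq _ hE h1).trans (sSup_le ?_)
  rintro e ⟨⟨x, rfl⟩, hM⟩
  obtain ⟨y, hy, hyM⟩ := h2 (f x) trivial hM ⟨x, rfl⟩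
  rw [← hy]
  exact le_iSup₂_of_le y hyM le_rfl

/-- if a generic condition is below all members in `M` of the family `f ∈ M`, then it is below all
members -/
theorem ev_iInf {X : Type} (c : X → O) (f : X → B) :
    ∀ᶠ M in clubF O, ∀ a, (∀ x, f x ∈ F.S a) → ∀ q, F.Gen a M q → (∀ x, c x ∈ M → q ≤ f x) →
      q ≤ ⨅ x, f x := by
  filter_upwards [F.ev_iSup c fun x => (f x)ᶜ] with M h a ha q hq hx
  have h1 := h a (fun x => F.compl_iff.2 (ha x)) q hq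
  rw [← compl_iInf] at h1
  have h2 : q ⊓ (⨅ x, f x)ᶜ ≤ ⊥ := by
    have h3 : q ⊓ (⨅ x, f x)ᶜ ≤ q ⊓ ⨆ x, ⨆ _ : c x ∈ M, (f x)ᶜ := le_inf inf_le_left h1
    refine h3.trans ?_
    rw [inf_iSup_eq]
    refine iSup_le fun x => ?_
    rw [inf_iSup_eq]
    refine iSup_le fun hxM => ?_
    calc q ⊓ (f x)ᶜ ≤ f x ⊓ (f x)ᶜ := inf_le_inf_right _ (hx x hxM)
      _ = ⊥ := inf_compl_eq_bot
  exact disjoint_compl_right_iff.1 (disjoint_iff_inf_le.2 h2)

/-- the same with a choice of a nonzero part -/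
theorem ne_of_iSup {X : Type} {f : X → B} {P : X → Prop} {q : B} (hq : q ≠ ⊥)
    (h : q ≤ ⨆ x, ⨆ _ : P x, f x) : ∃ x, P x ∧ q ⊓ f x ≠ ⊥ := by
  by_contra hn
  push Not at hn
  apply hq
  rw [← le_bot_iff]
  calc q ≤ q ⊓ ⨆ x, ⨆ _ : P x, f x := le_inf le_rfl h
    _ ≤ ⊥ := by
      rw [inf_iSup_eq]
      refine iSup_le fun x => ?_
      rw [inf_iSup_eq]
      exact iSup_le fun hx => (hn x hx).le

theorem ne_of_iSup' {X : Type} {f : X → B} {q : B} (hq : q ≠ ⊥) (h : q ≤ ⨆ x, f x) :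
    ∃ x, q ⊓ f x ≠ ⊥ := by
  obtain ⟨x, -, hx⟩ := ne_of_iSup (P := fun _ => True) hq (by simpa using h)
  exact ⟨x, hx⟩

end Flt

end Pool.Agent.BPF
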