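import Pool.Agent.Lib.MP_11349d_lc.Ifc

/-!
# A special Aronszajn tree whose levels are copies of `ℕ`

For `Ω` of order type `ω₁` we construct a coherent sequence of injections `e ξ : Iic ξ → ℕ` with
co-infinite ranges; the level `ξ` consists of the injections `Iic ξ → ℕ` which are equal to `e ξ` up
to finitely many arguments.
-/

set_option autoImplicit false

namespace Pool.Agent.BPF

open Set

namespace LT

variable {Ω : Type} [LinearOrder Ω]

/-- injective on `Iic ξ`, co-infinite range -/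
structure Nice (ξ : Ω) (s : Ω → ℕ) : Prop where
  inj : InjOn s (Iic ξ)
  inf : (s '' Iic ξ)ᶜ.Infinite

/-- equality up to finitely many arguments on `Iic ξ` -/
def Eqf (ξ : Ω) (s t : Ω → ℕ) : Prop := {x | x ≤ ξ ∧ s x ≠ t x}.Finite

theorem Eqf.symm {ξ : Ω} {s t : Ω → ℕ} (h : Eqf ξ s t) : Eqf ξ t s := by
  refine h.subset ?_
  rintro x ⟨hx, hne⟩
  exact ⟨hx, hne.symm⟩

theorem Eqf.trans {ξ : Ω} {s t u : Ω → ℕ} (h : Eqf ξ s t) (h' : Eqf ξ t u) : Eqf ξ s u := by
  refine (h.union h').subset ?_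
  rintro x ⟨hx, hne⟩
  by_cases hst : s x = t x
  · right; exact ⟨hx, by rwa [← hst]⟩
  · left; exact ⟨hx, hst⟩

theorem Eqf.mono {ξ η : Ω} {s t : Ω → ℕ} (hξ : ξ ≤ η) (h : Eqf η s t) : Eqf ξ s t :=
  h.subset fun _ hx => ⟨hx.1.trans hξ, hx.2⟩

theorem Eqf.refl (ξ : Ω) (s : Ω → ℕ) : Eqf ξ s s := by
  unfold Eqf; simp

theorem Eqf.of_eqOn {ξ : Ω} {s t : Ω → ℕ} (h : EqOn s t (Iic ξ)) : Eqf ξ s t := by
  unfold Eqf
  convert Set.finite_empty (α := Ω)
  ext x
  simp only [mem_setOf_eq, mem_empty_iff_false, iff_false, not_and, not_not]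
  exact fun hx => h hx

theorem Nice.congr {ξ : Ω} {s t : Ω → ℕ} (h : Nice ξ s) (hst : EqOn s t (Iic ξ)) : Nice ξ t :=
  ⟨h.inj.congr hst, by rw [← hst.image_eq]; exact h.inf⟩

/-- extension of a finite modification -/
theorem ext_lemma {ξ ζ : Ω} (hξ : ξ ≤ ζ) {s t : Ω → ℕ} (hs : Nice ξ s) (ht : Nice ζ t)
    (hst : Eqf ξ s t) (F : Set ℕ) (hF : F.Finite) (hFs : Disjoint F (s '' Iic ξ)) :
    ∃ s' : Ω → ℕ, EqOn s' s (Iic ξ) ∧ Nice ζ s' ∧ Eqf ζ s' t ∧ Disjoint F (s' '' Iic ζ) := by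
  classical
  -- the set of the bad arguments
  set B : Set Ω := {y | ξ < y ∧ y ≤ ζ ∧ t y ∈ s '' Iic ξ ∪ F} with hB
  have hBfin : B.Finite := by
    have h1 : (t '' B) ⊆ s '' {x | x ≤ ξ ∧ s x ≠ t x} ∪ F := by
      rintro _ ⟨y, ⟨hy1, hy2, hy3⟩, rfl⟩
      rcases hy3 with ⟨x, hx, hxy⟩ | hy3
      · left
        refine ⟨x, ⟨hx, fun he => ?_⟩, hxy⟩
        have : x = y := ht.inj (show x ≤ ζ from le_trans hx hξ) hy2 (by rw [← he, hxy])
        exact absurd hy1 (not_lt.mpr (this ▸ hx))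
      · right; exact hy3
    have h2 : (t '' B).Finite := ((hst.image s).union hF).subset h1
    exact Set.Finite.of_finite_image h2 (ht.inj.mono fun y hy => hy.2.1)
  -- free values
  set V : Set ℕ := (t '' Iic ζ ∪ s '' Iic ξ ∪ F)ᶜ with hV
  have hVinf : V.Infinite := by
    have h1 : (t '' Iic ζ)ᶜ \ (s '' {x | x ≤ ξ ∧ s x ≠ t x} ∪ F) ⊆ V := by
      rintro v ⟨hv1, hv2⟩
      rintro ((hv | ⟨x, hx, rfl⟩) | hv)
      · exact hv1 hv
      · by_cases he : s x = t x
        · exact hv1 ⟨x, le_trans hx hξ, he.symm⟩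
        · exact hv2 (Or.inl ⟨x, ⟨hx, he⟩, rfl⟩)
      · exact hv2 (Or.inr hv)
    exact (ht.inf.diff ((hst.image s).union hF)).mono h1
  obtain ⟨j, hjmaps, hjinj⟩ : ∃ j : Ω → ℕ, (∀ y ∈ B, j y ∈ V) ∧ InjOn j B := by
    haveI : Finite B := hBfin
    haveI : Infinite V := hVinf.to_subtype
    obtain ⟨g⟩ : Nonempty (B ↪ V) := by
      haveI : Countable B := inferInstance
      exact ⟨(Finite.equivFin B).toEmbedding.trans
        (Fin.valEmbedding.trans (Infinite.natEmbedding V))⟩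
    refine ⟨fun y => if h : y ∈ B then (g ⟨y, h⟩ : ℕ) else 0, fun y hy => ?_, fun y hy z hz hyz => ?_⟩
    · simp only [hy, dif_pos]; exact (g ⟨y, hy⟩).2
    · simp only [hy, hz, dif_pos] at hyz
      have := g.injective (Subtype.ext hyz)
      exact congrArg Subtype.val this
  refine ⟨fun y => if y ≤ ξ then s y else if y ∈ B then j y else t y, ?_, ?_, ?_, ?_⟩
  · intro y hy; simp only [if_pos (show y ≤ ξ from hy)]
  · constructor
    · -- injectivity
      have key : ∀ y z : Ω, y ≤ ζ → z ≤ ζ → y < z →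
          (if y ≤ ξ then s y else if y ∈ B then j y else t y) ≠
          (if z ≤ ξ then s z else if z ∈ B then j z else t z) := by
        intro y z hy hz hyz
        by_cases hzξ : z ≤ ξ
        · have hyξ : y ≤ ξ := hyz.le.trans hzξ
          simp only [if_pos hzξ, if_pos hyξ]
          exact fun he => hyz.ne (hs.inj hyξ hzξ he)
        · simp only [if_neg hzξ]
          by_cases hyξ : y ≤ ξ
          · simp only [if_pos hyξ]
            by_cases hzB : z ∈ B
            · simp only [if_pos hzB]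
              intro he
              exact hjmaps z hzB (Or.inl (Or.inr ⟨y, hyξ, he⟩))
            · simp only [if_neg hzB]
              intro he
              exact hzB ⟨not_le.mp hzξ, hz, Or.inl ⟨y, hyξ, he⟩⟩
          · simp only [if_neg hyξ]
            by_cases hyB : y ∈ B
            · by_cases hzB : z ∈ B
              · simp only [if_pos hyB, if_pos hzB]
                exact fun he => hyz.ne (hjinj hyB hzB he)
              · simp only [if_pos hyB, if_neg hzB]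
                intro he
                exact hjmaps y hyB (Or.inl (Or.inl ⟨z, hz, he.symm⟩))
            · by_cases hzB : z ∈ B
              · simp only [if_neg hyB, if_pos hzB]
                intro he
                exact hjmaps z hzB (Or.inl (Or.inl ⟨y, hy, he⟩))
              · simp only [if_neg hyB, if_neg hzB]
                exact fun he => hyz.ne (ht.inj hy hz he)
      intro y hy z hz hyz
      rcases lt_trichotomy y z with h | h | h
      · exact absurd hyz (key y z hy hz h)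
      · exact h
      · exact absurd hyz.symm (key z y hz hy h)
    · -- the range is co-infinite
      have h1 : V \ (j '' B) ⊆
          ((fun y => if y ≤ ξ then s y else if y ∈ B then j y else t y) '' Iic ζ)ᶜ := by
        rintro v ⟨hv1, hv2⟩ ⟨y, hy, hyv⟩
        simp only at hyv
        split_ifs at hyv with h1 h2
        · exact hv1 (Or.inl (Or.inr ⟨y, h1, hyv⟩))
        · exact hv2 ⟨y, h2, hyv⟩
        · exact hv1 (Or.inl (Or.inl ⟨y, hy, hyv⟩))
      exact (hVinf.diff (hBfin.image j)).mono h1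
  · -- equal to `t` up to finitely many arguments
    refine (hst.union hBfin).subset ?_
    rintro y ⟨hy, hne⟩
    simp only at hne
    split_ifs at hne with h1 h2
    · left; exact ⟨h1, hne⟩
    · right; exact h2
    · exact absurd rfl hne
  · rw [Set.disjoint_left]
    rintro v hv ⟨y, hy, hyv⟩
    simp only at hyv
    split_ifs at hyv with h1 h2
    · exact Set.disjoint_left.mp hFs hv ⟨y, h1, hyv⟩
    · exact hjmaps y h2 (Or.inr (by rw [hyv]; exact hv))
    · exact h2 ⟨not_le.mp h1, hy, Or.inr (by rw [hyv]; exact hv)⟩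

/-- the successor case -/
theorem step_succ {ξ η : Ω} (hξ : ξ < η) (hmax : ∀ ζ < η, ζ ≤ ξ) {t : Ω → ℕ} (ht : Nice ξ t) :
    ∃ s, Nice η s ∧ Eqf ξ t s := by
  classical
  obtain ⟨v, hv⟩ := ht.inf.nonempty
  have hle : ∀ y ≤ η, y ≠ η → y ≤ ξ := fun y hy hne => hmax y (lt_of_le_of_ne hy hne)
  refine ⟨fun y => if y = η then v else t y, ⟨?_, ?_⟩, ?_⟩
  · intro y hy z hz hyz
    simp only at hyz
    split_ifs at hyz with h1 h2 h2
    · rw [h1, h2]
    · exact absurd ⟨z, hle z hz h2, hyz.symm⟩ hv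
    · exact absurd ⟨y, hle y hy h1, hyz⟩ hv
    · exact ht.inj (hle y hy h1) (hle z hz h2) hyz
  · have h1 : (t '' Iic ξ)ᶜ \ {v} ⊆ ((fun y => if y = η then v else t y) '' Iic η)ᶜ := by
      rintro w ⟨hw1, hw2⟩ ⟨y, hy, hyw⟩
      simp only at hyw
      split_ifs at hyw with h
      · exact hw2 hyw.symm
      · exact hw1 ⟨y, hle y hy h, hyw⟩
    exact (ht.inf.sdiff (finite_singleton v)).mono h1
  · apply Eqf.of_eqOn
    intro y hy
    have : y ≠ η := (lt_of_le_of_lt hy hξ).ne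
    simp only [if_neg this]

/-- the limit case -/
theorem step_lim {η : Ω} (c : ℕ → Ω) (hc : StrictMono c) (hcη : ∀ n, c n < η)
    (hcof : ∀ ξ < η, ∃ n, ξ ≤ c n) (g : Ω → Ω → ℕ) (hg : ∀ ξ < η, Nice ξ (g ξ))
    (hgg : ∀ ξ ζ, ξ ≤ ζ → ζ < η → Eqf ξ (g ξ) (g ζ)) :
    ∃ s, Nice η s ∧ ∀ ξ < η, Eqf ξ (g ξ) s := by
  classical
  -- approximations: `(s, F)`, `F` finite, disjoint from the range
  let P : ℕ → (Ω → ℕ) × Finset ℕ → Prop := fun n a =>
    Nice (c n) a.1 ∧ Eqf (c n) (g (c n)) a.1 ∧ Disjoint (a.2 : Set ℕ) (a.1 '' Iic (c n)) ∧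
      a.2.card = n
  have h0 : ∃ a, P 0 a := ⟨(g (c 0), ∅), hg _ (hcη 0), Eqf.refl _ _, by simp, rfl⟩
  have hs : ∀ n a, P n a → ∃ b, P (n + 1) b ∧ EqOn b.1 a.1 (Iic (c n)) ∧ a.2 ⊆ b.2 := by
    rintro n ⟨s, F⟩ ⟨hn, hE, hF, hcard⟩
    have hle : c n ≤ c (n + 1) := (hc (Nat.lt_succ_self n)).le
    have hE' : Eqf (c n) s (g (c (n + 1))) :=
      hE.symm.trans (hgg (c n) (c (n + 1)) hle (hcη _))
    obtain ⟨s', h1, h2, h3, h4⟩ := ext_lemma hle hn (hg _ (hcη (n + 1))) hE' (F : Set ℕ)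
      F.finite_toSet hF
    obtain ⟨v, hv⟩ := (h2.inf.sdiff F.finite_toSet).nonempty
    refine ⟨(s', insert v F), ⟨h2, h3.symm, ?_, ?_⟩, h1, Finset.subset_insert _ _⟩
    · rw [Finset.coe_insert, Set.disjoint_left]
      rintro w (rfl | hw)
      · exact hv.1
      · exact Set.disjoint_left.mp h4 hw
    · rw [Finset.card_insert_of_notMem (fun h => hv.2 h), hcard]
  choose! nx hnx1 hnx2 hnx3 using hs
  obtain ⟨a0, ha0⟩ := h0
  let a : ℕ → (Ω → ℕ) × Finset ℕ := fun n => Nat.rec a0 (fun n x => nx n x) n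
  have ha : ∀ n, P n (a n) := by
    intro n
    induction n with
    | zero => exact ha0
    | succ n ih => exact hnx1 n _ ih
  have ha1 : ∀ n, EqOn (a (n + 1)).1 (a n).1 (Iic (c n)) := fun n => hnx2 n _ (ha n)
  have ha2 : ∀ n, (a n).2 ⊆ (a (n + 1)).2 := fun n => hnx3 n _ (ha n)
  have ha1' : ∀ n m, n ≤ m → EqOn (a m).1 (a n).1 (Iic (c n)) := by
    intro n m hnm
    induction m, hnm using Nat.le_induction with
    | base => exact fun _ _ => rfl
    | succ m hnm ih =>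
      intro x hx
      rw [ha1 m (show x ≤ c m from le_trans hx (hc.monotone hnm)), ih hx]
  have ha2' : ∀ n m, n ≤ m → (a n).2 ⊆ (a m).2 := by
    intro n m hnm
    induction m, hnm using Nat.le_induction with
    | base => exact subset_rfl
    | succ m hnm ih => exact ih.trans (ha2 m)
  -- the reserved values
  set F : Set ℕ := ⋃ n, ((a n).2 : Set ℕ) with hFdef
  have hFinf : F.Infinite := by
    intro hfin
    have hsub : ∀ n, (a n).2 ⊆ hfin.toFinset := by
      intro n v hv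
      rw [Set.Finite.mem_toFinset]
      exact mem_iUnion.mpr ⟨n, hv⟩
    have h1 := Finset.card_le_card (hsub (hfin.toFinset.card + 1))
    have h2 := (ha (hfin.toFinset.card + 1)).2.2.2
    omega
  have hFdisj : ∀ n x, x ≤ c n → (a n).1 x ∉ F := by
    intro n x hx hF
    obtain ⟨m, hm⟩ := mem_iUnion.mp hF
    have h1 : (a n).1 x ∈ ((a (max n m)).2 : Set ℕ) := ha2' m _ (le_max_right n m) hm
    have h2 : (a (max n m)).1 x = (a n).1 x := ha1' n _ (le_max_left n m) hx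
    exact Set.disjoint_left.mp (ha (max n m)).2.2.1 h1
      ⟨x, le_trans hx (hc.monotone (le_max_left n m)), h2⟩
  obtain ⟨v, hv⟩ := hFinf.nonempty
  -- the level of an argument
  have hlev : ∀ x : Ω, x < η → ∃ n, x ≤ c n := hcof
  choose! lv hlv using hlev
  refine ⟨fun x => if x < η then (a (lv x)).1 x else v, ⟨?_, ?_⟩, ?_⟩
  · have hval : ∀ x n, x < η → x ≤ c n → (a (lv x)).1 x = (a n).1 x := by
      intro x n hx hn
      rcases le_total n (lv x) with h | h
      · exact ha1' n _ h hn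
      · exact (ha1' (lv x) n h (hlv x hx)).symm
    intro x hx y hy hxy
    simp only at hxy
    split_ifs at hxy with h1 h2 h2
    · rcases le_total x y with h | h
      · rw [hval x (lv y) h1 (h.trans (hlv y h2))] at hxy
        exact (ha (lv y)).1.inj (h.trans (hlv y h2)) (hlv y h2) hxy
      · rw [hval y (lv x) h2 (h.trans (hlv x h1))] at hxy
        exact (ha (lv x)).1.inj (hlv x h1) (h.trans (hlv x h1)) hxy
    · exact absurd (hxy ▸ hv) (hFdisj (lv x) x (hlv x h1))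
    · exact absurd (hxy ▸ hv) (hFdisj (lv y) y (hlv y h2))
    · rw [le_antisymm hx (not_lt.mp h1), le_antisymm hy (not_lt.mp h2)]
  · have h1 : F \ {v} ⊆ ((fun x => if x < η then (a (lv x)).1 x else v) '' Iic η)ᶜ := by
      rintro w ⟨hw1, hw2⟩ ⟨x, hx, hxw⟩
      simp only at hxw
      split_ifs at hxw with h
      · exact hFdisj (lv x) x (hlv x h) (hxw ▸ hw1)
      · exact hw2 hxw.symm
    exact (hFinf.sdiff (finite_singleton v)).mono h1
  · intro ξ hξ
    obtain ⟨n, hn⟩ := hcof ξ hξ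
    have h1 : Eqf ξ (g ξ) (a n).1 :=
      (hgg ξ (c n) hn (hcη n)).trans ((ha n).2.1.mono hn)
    refine h1.trans (Eqf.of_eqOn ?_)
    intro x hx
    have hxη : x < η := lt_of_le_of_lt hx hξ
    have hxn : x ≤ c n := le_trans hx hn
    simp only [if_pos hxη]
    rcases le_total n (lv x) with h | h
    · exact (ha1' n _ h hxn).symm
    · exact ha1' (lv x) n h (hlv x hxη)

/-- a cofinal sequence -/
theorem exists_cof {η : Ω} (hc : (Iio η).Countable) (hne : (Iio η).Nonempty)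
    (hmax : ∀ ξ < η, ∃ ζ, ξ < ζ ∧ ζ < η) :
    ∃ c : ℕ → Ω, StrictMono c ∧ (∀ n, c n < η) ∧ ∀ ξ < η, ∃ n, ξ ≤ c n := by
  classical
  obtain ⟨f, hf⟩ := hc.exists_eq_range hne
  have hfη : ∀ n, f n < η := fun n => by
    have : f n ∈ Iio η := by rw [hf]; exact mem_range_self n
    exact this
  have hstep : ∀ (n : ℕ) (x : Ω), x < η → ∃ y, y < η ∧ x < y ∧ f n ≤ y := by
    intro n x hx
    obtain ⟨ζ, h1, h2⟩ := hmax (max x (f n)) (max_lt hx (hfη n))
    exact ⟨ζ, h2, lt_of_le_of_lt (le_max_left _ _) h1, (lt_of_le_of_lt (le_max_right _ _) h1).le⟩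
  choose! nx h1 h2 h3 using hstep
  let c : ℕ → Ω := fun n => Nat.rec (f 0) (fun n x => nx n x) n
  have hc1 : ∀ n, c n < η := by
    intro n
    induction n with
    | zero => exact hfη 0
    | succ n ih => exact h1 n _ ih
  refine ⟨c, strictMono_nat_of_lt_succ fun n => h2 n _ (hc1 n), hc1, ?_⟩
  intro ξ hξ
  obtain ⟨n, rfl⟩ : ξ ∈ range f := by rw [← hf]; exact hξ
  exact ⟨n + 1, h3 n _ (hc1 n)⟩

theorem step {η : Ω} (hη : (Iio η).Countable) (g : Ω → Ω → ℕ) (hg : ∀ ξ < η, Nice ξ (g ξ))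
    (hgg : ∀ ξ ζ, ξ ≤ ζ → ζ < η → Eqf ξ (g ξ) (g ζ)) :
    ∃ s, Nice η s ∧ ∀ ξ < η, Eqf ξ (g ξ) s := by
  classical
  rcases (Iio η).eq_empty_or_nonempty with h0 | hne
  · refine ⟨fun _ => 0, ⟨?_, ?_⟩, ?_⟩
    · intro y hy z hz _
      have hy' : y = η := by
        by_contra h
        have : y ∈ Iio η := lt_of_le_of_ne hy h
        rw [h0] at this; exact this
      have hz' : z = η := by
        by_contra h
        have : z ∈ Iio η := lt_of_le_of_ne hz h
        rw [h0] at this; exact this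
      rw [hy', hz']
    · have : ((fun _ : Ω => (0 : ℕ)) '' Iic η) ⊆ {0} := by
        rintro _ ⟨y, -, rfl⟩; rfl
      exact (Set.finite_singleton (0 : ℕ)).infinite_compl.mono (compl_subset_compl.mpr this)
    · intro ξ hξ
      have : ξ ∈ Iio η := hξ
      rw [h0] at this; exact this.elim
  · by_cases hmax : ∀ ξ < η, ∃ ζ, ξ < ζ ∧ ζ < η
    · obtain ⟨c, h1, h2, h3⟩ := exists_cof hη hne hmax
      exact step_lim c h1 h2 h3 g hg hgg
    · push Not at hmax
      obtain ⟨ξ, hξ, hmax⟩ := hmax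
      have hm : ∀ ζ < η, ζ ≤ ξ := by
        intro ζ hζ
        by_contra h
        exact absurd hζ (not_lt.mpr (hmax ζ (not_le.mp h)))
      obtain ⟨s, h1, h2⟩ := step_succ hξ hm (hg ξ hξ)
      exact ⟨s, h1, fun ζ hζ => (hgg ζ ξ (hm ζ hζ) hξ).trans (h2.mono (hm ζ hζ))⟩

open Classical in
/-- the coherent sequence -/
noncomputable def coh [WellFoundedLT Ω] : Ω → Ω → ℕ :=
  (wellFounded_lt (α := Ω)).fix fun η e =>
    if h : ∃ s, Nice η s ∧ ∀ ξ (hξ : ξ < η), Eqf ξ (e ξ hξ) s then h.choose else fun _ => 0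

theorem coh_spec [WellFoundedLT Ω] (hc : ∀ ξ : Ω, (Iio ξ).Countable) (η : Ω) :
    Nice η (coh η) ∧ ∀ ξ < η, Eqf ξ (coh ξ) (coh η) := by
  classical
  induction η using WellFoundedLT.induction with
  | ind η ih =>
    have hex : ∃ s, Nice η s ∧ ∀ ξ (_ : ξ < η), Eqf ξ (coh ξ) s := by
      refine step (hc η) coh (fun ξ hξ => (ih ξ hξ).1) ?_
      intro ξ ζ h1 h2
      rcases h1.eq_or_lt with rfl | h1
      · exact Eqf.refl _ _
      · exact (ih ζ h2).2 ξ h1
    have heq : coh η = hex.choose := by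
      conv_lhs => rw [coh, WellFounded.fix_eq]
      exact dif_pos hex
    rw [heq]
    exact hex.choose_spec

/-! ### The tree -/

/-- the level `ξ` -/
def Lv [WellFoundedLT Ω] (ξ : Ω) : Type :=
  {s : Iic ξ → ℕ // Function.Injective s ∧ {x : Iic ξ | s x ≠ coh ξ x}.Finite}

/-- extension by `0` -/
noncomputable def ex {ξ : Ω} (s : Iic ξ → ℕ) : Ω → ℕ :=
  open Classical in fun x => if h : x ≤ ξ then s ⟨x, h⟩ else 0

theorem ex_eq {ξ : Ω} (s : Iic ξ → ℕ) {x : Ω} (h : x ≤ ξ) : ex s x = s ⟨x, h⟩ := by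
  simp [ex, h]

theorem eqf_ex [WellFoundedLT Ω] {ξ : Ω} (s : Lv ξ) : Eqf ξ (ex s.1) (coh ξ) := by
  refine (s.2.2.image (fun x : Iic ξ => (x : Ω))).subset ?_
  rintro x ⟨hx, hne⟩
  exact ⟨⟨x, hx⟩, by rwa [ex_eq s.1 hx] at hne, rfl⟩

theorem nice_ex [WellFoundedLT Ω] (hc : ∀ ξ : Ω, (Iio ξ).Countable) {ξ : Ω} (s : Lv ξ) :
    Nice ξ (ex s.1) := by
  refine ⟨?_, ?_⟩
  · intro x hx y hy hxy
    rw [ex_eq s.1 hx, ex_eq s.1 hy] at hxy
    exact congrArg Subtype.val (s.2.1 hxy)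
  · have h1 := (coh_spec hc ξ).1.inf
    have h2 : (coh ξ '' Iic ξ)ᶜ \ (ex s.1 '' {x | x ≤ ξ ∧ ex s.1 x ≠ coh ξ x}) ⊆
        (ex s.1 '' Iic ξ)ᶜ := by
      rintro v ⟨hv1, hv2⟩ ⟨x, hx, rfl⟩
      by_cases he : ex s.1 x = coh ξ x
      · exact hv1 ⟨x, hx, he.symm⟩
      · exact hv2 ⟨x, ⟨hx, he⟩, rfl⟩
    exact (h1.sdiff ((eqf_ex s).image _)).mono h2

/-- restriction of a node -/
def res [WellFoundedLT Ω] (hc : ∀ ξ : Ω, (Iio ξ).Countable) {ξ η : Ω} (h : ξ ≤ η) (s : Lv η) :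
    Lv ξ :=
  ⟨fun x => s.1 ⟨x.1, le_trans x.2 h⟩,
   fun _ _ hxy => Subtype.ext (Subtype.mk.inj (s.2.1 hxy)), by
    have h1 : Eqf ξ (ex s.1) (coh ξ) := by
      rcases h.eq_or_lt with rfl | h'
      · exact eqf_ex s
      · exact ((eqf_ex s).mono h).trans ((coh_spec hc η).2 ξ h').symm
    refine Set.Finite.of_finite_image (f := fun x : Iic ξ => (x : Ω)) (h1.subset ?_)
      Subtype.val_injective.injOn
    rintro _ ⟨x, hx, rfl⟩
    refine ⟨x.2, ?_⟩
    rw [ex_eq s.1 (le_trans x.2 h)]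
    exact hx⟩

theorem res_surj [WellFoundedLT Ω] (hc : ∀ ξ : Ω, (Iio ξ).Countable) {ξ η : Ω} (h : ξ ≤ η) :
    Function.Surjective (res hc h) := by
  intro s
  have h1 : Eqf ξ (ex s.1) (coh η) := by
    rcases h.eq_or_lt with rfl | h'
    · exact eqf_ex s
    · exact (eqf_ex s).trans ((coh_spec hc η).2 ξ h')
  obtain ⟨s', h2, h3, h4, -⟩ := ext_lemma h (nice_ex hc s) (coh_spec hc η).1 h1 ∅
    Set.finite_empty (Set.empty_disjoint _)
  refine ⟨⟨fun x => s' x, ?_, ?_⟩, ?_⟩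
  · intro x y hxy
    exact Subtype.ext (h3.inj x.2 y.2 hxy)
  · refine Set.Finite.of_finite_image (f := fun x : Iic η => (x : Ω)) (h4.subset ?_)
      Subtype.val_injective.injOn
    rintro _ ⟨x, hx, rfl⟩
    exact ⟨x.2, hx⟩
  · apply Subtype.ext
    funext x
    show s' x = s.1 x
    rw [h2 x.2, ex_eq s.1 x.2]

theorem countable_lv [WellFoundedLT Ω] (hc : ∀ ξ : Ω, (Iio ξ).Countable) (ξ : Ω) :
    Countable (Lv ξ) := by
  classical
  have hI : (Iic ξ).Countable := by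
    have : Iic ξ = insert ξ (Iio ξ) := by
      ext x
      simp only [mem_Iic, mem_insert_iff, mem_Iio]
      exact le_iff_eq_or_lt
    rw [this]
    exact (hc ξ).insert ξ
  have : Countable (Iic ξ) := hI.to_subtype
  refine Function.Injective.countable
    (f := fun s : Lv ξ => (s.2.2.toFinset.image fun x => (x, s.1 x) : Finset (Iic ξ × ℕ))) ?_
  intro s t hst
  simp only at hst
  apply Subtype.ext
  funext x
  have key : ∀ s : Lv ξ, ∀ x v, (x, v) ∈ (s.2.2.toFinset.image fun x => (x, s.1 x) :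
      Finset (Iic ξ × ℕ)) ↔ s.1 x ≠ coh ξ x ∧ v = s.1 x := by
    intro s x v
    simp only [Finset.mem_image, Set.Finite.mem_toFinset, Prod.mk.injEq]
    constructor
    · rintro ⟨y, hy, rfl, rfl⟩; exact ⟨hy, rfl⟩
    · rintro ⟨h1, rfl⟩; exact ⟨x, h1, rfl, rfl⟩
  by_cases h1 : s.1 x = coh ξ x
  · by_cases h2 : t.1 x = coh ξ x
    · rw [h1, h2]
    · have := (key t x (t.1 x)).mpr ⟨h2, rfl⟩
      rw [← hst, key s] at this
      exact this.2.symm
  · have := (key s x (s.1 x)).mpr ⟨h1, rfl⟩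
    rw [hst, key t] at this
    exact this.2

theorem infinite_lv [WellFoundedLT Ω] (hc : ∀ ξ : Ω, (Iio ξ).Countable) (ξ : Ω) :
    Infinite (Lv ξ) := by
  classical
  have hN := (coh_spec hc ξ).1
  have : Infinite ((coh ξ '' Iic ξ)ᶜ : Set ℕ) := hN.inf.to_subtype
  refine Infinite.of_injective
    (fun v : ((coh ξ '' Iic ξ)ᶜ : Set ℕ) => (⟨fun x => if (x : Ω) = ξ then v else coh ξ x, ?_, ?_⟩ :
      Lv ξ)) ?_
  · intro x y hxy
    simp only at hxy
    apply Subtype.ext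
    split_ifs at hxy with h1 h2 h2
    · rw [h1, h2]
    · exact absurd ⟨y, y.2, hxy.symm⟩ v.2
    · exact absurd ⟨x, x.2, hxy⟩ v.2
    · exact hN.inj x.2 y.2 hxy
  · refine (Set.finite_singleton (⟨ξ, le_rfl⟩ : Iic ξ)).subset ?_
    intro x hx
    simp only [mem_singleton_iff]
    by_contra h
    apply hx
    have : (x : Ω) ≠ ξ := fun h' => h (Subtype.ext h')
    simp only [if_neg this]
  · intro v w hvw
    have := congrFun (congrArg Subtype.val hvw) ⟨ξ, le_rfl⟩
    simp only [if_true] at this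
    exact Subtype.ext this

end LT

open LT in
/-- There is a special Aronszajn tree with levels `ℕ`, all elements of which have extensions on all
higher levels. -/
theorem exists_ltree {Ω : Type} [LinearOrder Ω] [WellFoundedLT Ω] (h : IsOm1 Ω) :
    Nonempty (LTree Ω) := by
  classical
  have hc := h.cnt
  have he : ∀ ξ : Ω, Nonempty (Lv ξ ≃ ℕ) := by
    intro ξ
    have := countable_lv hc ξ
    have := infinite_lv hc ξ
    exact nonempty_equiv_of_countable
  obtain ⟨e⟩ : Nonempty (∀ ξ : Ω, Lv ξ ≃ ℕ) := ⟨fun ξ => Classical.choice (he ξ)⟩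
  refine ⟨{
    r := fun ξ η n => if h : ξ ≤ η then e ξ (res hc h ((e η).symm n)) else 0
    r_self := ?_
    r_comp := ?_
    r_surj := ?_
    f := fun ξ n => ((e ξ).symm n).1 ⟨ξ, le_rfl⟩
    f_ne := ?_ }⟩
  · intro ξ n
    simp only [le_refl, dif_pos]
    have : res hc (le_refl ξ) ((e ξ).symm n) = (e ξ).symm n := rfl
    rw [this, Equiv.apply_symm_apply]
  · intro ξ η ζ n h1 h2
    simp only [dif_pos h1, dif_pos h2, dif_pos (h1.trans h2), Equiv.symm_apply_apply]
    rfl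
  · intro ξ η h1 n
    obtain ⟨t, ht⟩ := res_surj hc h1 ((e ξ).symm n)
    refine ⟨e η t, ?_⟩
    simp only [dif_pos h1, Equiv.symm_apply_apply, ht, Equiv.apply_symm_apply]
  · intro ξ η n h1
    simp only [dif_pos h1.le, Equiv.symm_apply_apply]
    intro heq
    have h2 : ((e η).symm n).1 ⟨ξ, h1.le⟩ = ((e η).symm n).1 ⟨η, le_rfl⟩ := heq
    have := ((e η).symm n).2.1 h2
    exact h1.ne (Subtype.mk.inj this)



end Pool.Agent.BPF
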