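import Mathlib

/-!
# Interfaces

Clubs of countable sets, extensions of a preorder `P` by a preorder `A` (`A` is read as `P * Q` for a
`P`-name `Q` of a forcing notion), relative properness, and the interfaces between the parts of the
proof: `RProp κ` (what is used of the reflecting cardinal) and `Iface` (what the iteration provides).
-/

set_option autoImplicit false

namespace Pool.Agent.BPF

open Cardinal

/-- `Ω` has order type `ω₁` -/
structure IsOm1 (Ω : Type) [LinearOrder Ω] [WellFoundedLT Ω] : Prop where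
  unc : ¬ Countable Ω
  cnt : ∀ ξ : Ω, (Set.Iio ξ).Countable

/-- `C` is a closed unbounded set of countable subsets of `U` -/
structure IsClub {U : Type*} (C : Set (Set U)) : Prop where
  cnt : ∀ c ∈ C, c.Countable
  unb : ∀ x : Set U, x.Countable → ∃ c ∈ C, x ⊆ c
  cls : ∀ c : ℕ → Set U, (∀ n, c n ∈ C) → (∀ n, c n ⊆ c (n + 1)) → (⋃ n, c n) ∈ C

section
variable {A : Type} [Preorder A]

/-- compatibility -/
def Cpt (a b : A) : Prop := ∃ x, x ≤ a ∧ x ≤ b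

/-- density -/
def Dns (D : Set A) : Prop := ∀ a, ∃ d ∈ D, d ≤ a

/-- `r` is `N`-generic; `N` is a (countable) set of elements and subsets of `A` -/
def GenA (N : Set (A ⊕ Set A)) (r : A) : Prop :=
  ∀ D : Set A, Sum.inr D ∈ N → Dns D → ∀ r' ≤ r, ∃ d ∈ D, Sum.inl d ∈ N ∧ Cpt d r'

end

/-- `A` is an extension of `P` (`P` is a complete suborder `e : P → A` with projection `π : A → P`) -/
structure PExt (P A : Type) [Preorder P] [Preorder A] where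
  e : P → A
  π : A → P
  e_mono : ∀ {p q}, p ≤ q → e p ≤ e q
  π_mono : ∀ {a b}, a ≤ b → π a ≤ π b
  π_e : ∀ p, π (e p) = p
  le_e : ∀ a, a ≤ e (π a)
  proj : ∀ a p, p ≤ π a → ∃ b ≤ a, π b ≤ p

namespace PExt
variable {P A : Type} [Preorder P] [Preorder A] (X : PExt P A)

/-- `q : P` is `N`-generic, for a set `N` of elements and subsets of `A` -/
def GenB (N : Set (A ⊕ Set A)) (q : P) : Prop :=
  ∀ D : Set P, Sum.inr (X.e '' D) ∈ N → Dns D → ∀ q' ≤ q, ∃ d ∈ D, Sum.inl (X.e d) ∈ N ∧ Cpt d q'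

/-- relative properness (`P` forces that the quotient `A / P` is proper): for club many countable
sets `N` of elements and subsets of `A`, for `p ∈ A ∩ N` and `N`-generic `q ≤ π p` in `P` there is an
`N`-generic `r ≤ p` in `A` with `π r ≤ q`. -/
def RelProper : Prop :=
  ∃ C : Set (Set (A ⊕ Set A)), IsClub C ∧ ∀ N ∈ C, ∀ p : A, Sum.inl p ∈ N → ∀ q ≤ X.π p,
    X.GenB N q → ∃ r ≤ p, X.π r ≤ q ∧ GenA N r

/-- below `b`, `g` is a name of a function `Ω → Ω` (`g ξ η` is the set of the conditions which force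
`g(ξ) = η`), and it is forced that all finite subsets `s` of `g` satisfy `𝒞 s` -/
structure Realizes {Ω : Type} (𝒞 : Finset (Ω × Ω) → Set P) (b : P) (g : Ω → Ω → Set A) : Prop where
  down : ∀ ξ η a a', a' ≤ a → a ∈ g ξ η → a' ∈ g ξ η
  total : ∀ a ≤ X.e b, ∀ ξ, ∃ a' ≤ a, ∃ η, a' ∈ g ξ η
  func : ∀ a ≤ X.e b, ∀ ξ η η', a ∈ g ξ η → a ∈ g ξ η' → η = η'
  fin : ∀ a ≤ X.e b, ∀ s : Finset (Ω × Ω), (∀ x ∈ s, a ∈ g x.1 x.2) → ∃ a' ≤ a, X.π a' ∈ 𝒞 s

end PExt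

/-- `A` is the underlying set of a relatively proper extension of `P` which realizes `𝒞` below `b` -/
def HasExt {Ω : Type} (P : Type) [Preorder P] (𝒞 : Finset (Ω × Ω) → Set P) (b : P) (A : Type) :
    Prop :=
  ∃ (_ : Preorder A) (X : PExt P A) (g : Ω → Ω → Set A), X.RelProper ∧ X.Realizes 𝒞 b g

/-- what is used of a reflecting cardinal `κ` -/
structure RProp (κ : Cardinal.{0}) : Prop where
  reg : κ.IsRegular
  pow : ∀ c < κ, (2 : Cardinal.{0}) ^ c < κ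
  om1 : ℵ₁ < κ
  refl : ∀ (Ω P : Type) (_ : Preorder P) (𝒞 : Finset (Ω × Ω) → Set P) (b : P), #Ω < κ → #P < κ →
    (∃ A, HasExt P 𝒞 b A) → ∃ A, #A < κ ∧ HasExt P 𝒞 b A

/-- The levels of the tree are copies of `ℕ`; `r ξ η n` is the element of level `ξ` below the element
`n` of level `η`. Every element has extensions on all higher levels; `f` maps chains injectively. -/
structure LTree (Ω : Type) [LinearOrder Ω] where
  r : Ω → Ω → ℕ → ℕ
  r_self : ∀ ξ n, r ξ ξ n = n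
  r_comp : ∀ ξ η ζ n, ξ ≤ η → η ≤ ζ → r ξ η (r η ζ n) = r ξ ζ n
  r_surj : ∀ ξ η, ξ ≤ η → Function.Surjective (r ξ η)
  f : Ω → ℕ → ℕ
  f_ne : ∀ ξ η n, ξ < η → f ξ (r ξ η n) ≠ f η n

/-- What the iteration provides: a complete Boolean algebra `B`, and names `U x` (`x : K`) of subtrees
of `T`. -/
structure Iface {Ω K B : Type} [LinearOrder Ω] [WellFoundedLT Ω] [CompleteBooleanAlgebra B]
    (T : LTree Ω) (U : K → Ω → ℕ → B) : Prop where
  nontriv : (⊥ : B) ≠ ⊤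
  /-- `ω₁` is a regular cardinal -/
  reg : ∀ c : ℕ → Ω → B, (∀ n, Monotone (c n)) → ⨅ n, ⨆ ξ, c n ξ ≤ ⨆ ξ, ⨅ n, c n ξ
  /-- the bounded proper forcing axiom -/
  bp : ∀ (c : Finset (Ω × Ω) → B) (b : {b : B // b ≠ ⊥}),
    (∃ A, HasExt {b : B // b ≠ ⊥} (fun s => {p | p.1 ≤ c s}) b A) →
    ∃ G : Ω → Ω → B, (∀ ξ, b.1 ≤ ⨆ η, G ξ η) ∧ (∀ ξ η η', η ≠ η' → G ξ η ⊓ G ξ η' = ⊥) ∧
      ∀ s : Finset (Ω × Ω), b.1 ⊓ ⨅ x ∈ s, G x.1 x.2 ≤ c s
  tree : ∀ x ξ η n, ξ ≤ η → U x η n ≤ U x ξ (T.r ξ η n)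
  unb : ∀ x ξ, ⨆ n, U x ξ n = ⊤
  ad : ∀ x y, x ≠ y → ⨆ ξ, ⨅ n, (U x ξ n ⊓ U y ξ n)ᶜ = ⊤
  /-- `K` has more than `ℵ₁` elements -/
  big : ∀ h : Ω → K → B, (∀ ξ x y, x ≠ y → h ξ x ⊓ h ξ y = ⊥) → ∃ x, ∀ ξ, h ξ x = ⊥

end Pool.Agent.BPF
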