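import Pool.Agent.Lib.MP_11349d_lc.R.PartR
import Pool.Agent.Lib.MP_11349d_lc.I.Fin
import Pool.Agent.Lib.MP_11349d_lc.V.Fin

/-! The three parts of the proof, and the theorem. -/

set_option autoImplicit false

namespace Pool.Agent.BPF

open Cardinal Pool.Agent.Lib.BVM

theorem main (h : ∃ κ : Cardinal.{0}, Reflecting κ) :
    ∃ (M : Type 1) (E : M → M → Prop), IsZFC E ∧ BPFA E ∧ NotSaturated E := by
  obtain ⟨κ, hκ⟩ := h
  obtain ⟨Ω, K, B, _, _, _, T, U, hΩ, hU⟩ := partI (partR hκ)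
  exact partV hΩ hU

end Pool.Agent.BPF
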