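import Pool.Agent.Lib.MP_11349d_lc.Flt

/-!
# Complete subalgebras and projections
-/

set_option autoImplicit false

namespace Pool.Agent.BPF

open Cardinal Pool.Agent.CSI

namespace Flt

variable {O Ω B : Type} [LinearOrder O] [WellFoundedLT O] [LinearOrder Ω] [WellFoundedLT Ω]
    [OrderBot O] [OrderBot Ω] [CompleteBooleanAlgebra B] {T : LTree Ω}
    (F : Flt (O := O) (B := B) T)

theorem iSup_mem {ι : Sort*} {a : O} {f : ι → B} (h : ∀ i, f i ∈ F.S a) : ⨆ i, f i ∈ F.S a :=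
  F.sup_mem a _ (by rintro _ ⟨i, rfl⟩; exact h i)

theorem compl_iff {a : O} {b : B} : bᶜ ∈ F.S a ↔ b ∈ F.S a :=
  ⟨fun h => by simpa using F.compl_mem a _ h, F.compl_mem a b⟩

theorem iInf_mem {ι : Sort*} {a : O} {f : ι → B} (h : ∀ i, f i ∈ F.S a) : ⨅ i, f i ∈ F.S a := by
  rw [← F.compl_iff, compl_iInf]
  exact F.iSup_mem fun i => F.compl_iff.2 (h i)

theorem sInf_mem {a : O} {E : Set B} (h : E ⊆ F.S a) : sInf E ∈ F.S a := by
  rw [sInf_eq_iInf']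
  exact F.iInf_mem fun i => h i.2

theorem bot_mem (a : O) : (⊥ : B) ∈ F.S a := by
  have := F.sup_mem a ∅ (by simp)
  simpa using this

theorem top_mem (a : O) : (⊤ : B) ∈ F.S a := by
  have := F.compl_mem a _ (F.bot_mem a)
  simpa using this

theorem sup_mem' {a : O} {x y : B} (hx : x ∈ F.S a) (hy : y ∈ F.S a) : x ⊔ y ∈ F.S a := by
  have := F.sup_mem a {x, y} (by rintro z (rfl | rfl) <;> assumption)
  simpa using this

theorem inf_mem {a : O} {x y : B} (hx : x ∈ F.S a) (hy : y ∈ F.S a) : x ⊓ y ∈ F.S a := by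
  rw [← F.compl_iff, compl_inf]
  exact F.sup_mem' (F.compl_iff.2 hx) (F.compl_iff.2 hy)

theorem himp_mem {a : O} {x y : B} (hx : x ∈ F.S a) (hy : y ∈ F.S a) : x ⇨ y ∈ F.S a := by
  rw [himp_eq]
  exact F.sup_mem' hy (F.compl_iff.2 hx)

theorem pr_mem (a : O) (b : B) : F.pr a b ∈ F.S a := F.sInf_mem fun _ h => h.1

theorem le_pr (a : O) (b : B) : b ≤ F.pr a b := le_sInf fun _ h => h.2

theorem pr_le {a : O} {b c : B} (hc : c ∈ F.S a) (h : b ≤ c) : F.pr a b ≤ c := sInf_le ⟨hc, h⟩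

theorem pr_le_iff {a : O} {b c : B} (hc : c ∈ F.S a) : F.pr a b ≤ c ↔ b ≤ c :=
  ⟨fun h => (F.le_pr a b).trans h, F.pr_le hc⟩

theorem pr_mono {a : O} {b c : B} (h : b ≤ c) : F.pr a b ≤ F.pr a c :=
  F.pr_le (F.pr_mem a c) (h.trans (F.le_pr a c))

theorem pr_of_mem {a : O} {b : B} (h : b ∈ F.S a) : F.pr a b = b :=
  le_antisymm (F.pr_le h le_rfl) (F.le_pr a b)

theorem pr_anti {a c : O} (h : a ≤ c) (b : B) : F.pr c b ≤ F.pr a b :=
  F.pr_le (F.mono a c h (F.pr_mem a b)) (F.le_pr a b)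

theorem pr_pr {a c : O} (h : a ≤ c) (b : B) : F.pr a (F.pr c b) = F.pr a b :=
  le_antisymm (F.pr_le (F.pr_mem a b) (F.pr_anti h b)) (F.pr_mono (F.le_pr c b))

theorem pr_eq_bot {a : O} {b : B} : F.pr a b = ⊥ ↔ b = ⊥ :=
  ⟨fun h => le_bot_iff.1 (h ▸ F.le_pr a b), fun h => by rw [h]; exact F.pr_of_mem (F.bot_mem a)⟩

theorem pr_inf {a : O} {b c : B} (hc : c ∈ F.S a) : F.pr a (b ⊓ c) = F.pr a b ⊓ c := by
  refine le_antisymm (le_inf (F.pr_mono inf_le_left) (F.pr_le hc inf_le_right)) ?_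
  have h : b ≤ cᶜ ⊔ F.pr a (b ⊓ c) := by
    have h1 : b = (b ⊓ c) ⊔ (b ⊓ cᶜ) := by rw [← inf_sup_left, sup_compl_eq_top, inf_top_eq]
    calc b = (b ⊓ c) ⊔ (b ⊓ cᶜ) := h1
      _ ≤ F.pr a (b ⊓ c) ⊔ cᶜ := sup_le_sup (F.le_pr a _) inf_le_right
      _ = _ := sup_comm _ _
  have h2 := F.pr_le (F.sup_mem' (F.compl_iff.2 hc) (F.pr_mem a (b ⊓ c))) h
  calc F.pr a b ⊓ c ≤ (cᶜ ⊔ F.pr a (b ⊓ c)) ⊓ c := inf_le_inf_right _ h2
    _ = F.pr a (b ⊓ c) ⊓ c := by rw [inf_sup_right, compl_inf_eq_bot, bot_sup_eq]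
    _ ≤ _ := inf_le_left

theorem inf_ne {a : O} {b c : B} (hc : c ∈ F.S a) : b ⊓ c ≠ ⊥ ↔ F.pr a b ⊓ c ≠ ⊥ := by
  rw [← F.pr_inf hc, ne_eq, ne_eq, F.pr_eq_bot]

theorem pr_iSup {ι : Sort*} (a : O) (f : ι → B) : F.pr a (⨆ i, f i) = ⨆ i, F.pr a (f i) :=
  le_antisymm (F.pr_le (F.iSup_mem fun _ => F.pr_mem a _)
    (iSup_mono fun _ => F.le_pr a _)) (iSup_le fun i => F.pr_mono (le_iSup f i))

theorem pr_sSup (a : O) (E : Set B) : F.pr a (sSup E) = ⨆ e ∈ E, F.pr a e := by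
  rw [sSup_eq_iSup, F.pr_iSup]
  simp only [F.pr_iSup]

/-- the largest element of `S a` below `p ⇨ x` -/
theorem pr_compl_le {a : O} {p x c : B} (hc : c ∈ F.S a) :
    c ≤ (F.pr a (p ⊓ xᶜ))ᶜ ↔ c ⊓ p ≤ x := by
  rw [le_compl_comm, F.pr_le_iff (F.compl_iff.2 hc), ← sdiff_eq, sdiff_le_iff, ← himp_eq,
    le_himp_iff, inf_comm]

theorem S_himp_le {a : O} {x y : B} (hx : x ∈ F.S a) (hy : y ∈ F.S a) : x ⇨ y ∈ F.S a :=
  F.himp_mem hx hy

theorem gen_mono {a : O} {M : Set O} {q q' : B} (h : q' ≤ q) (hq : F.Gen a M q) : F.Gen a M q' := by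
  intro E hE hM
  calc q' ⊓ sSup E ≤ q' ⊓ (q ⊓ sSup E) := le_inf inf_le_left (inf_le_inf_right _ h)
    _ ≤ _ := inf_le_right.trans (hq E hE hM)

theorem gen_le {a c : O} {M : Set O} {q : B} (h : a ≤ c) (hq : F.Gen c M q) : F.Gen a M q :=
  fun E hE hM => hq E (hE.trans (F.mono a c h)) hM

theorem gen_iSup {ι : Sort*} {a : O} {M : Set O} {f : ι → B} (h : ∀ i, F.Gen a M (f i)) :
    F.Gen a M (⨆ i, f i) := by
  intro E hE hM
  rw [iSup_inf_eq]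
  exact iSup_le fun i => h i E hE hM

theorem gen_pr {a c : O} {M : Set O} {q : B} (h : a ≤ c) (hq : F.Gen c M q) :
    F.Gen a M (F.pr a q) := by
  intro E hE hM
  have h1 : sSup E ∈ F.S a := F.sup_mem a E hE
  have h2 : sSup {e | e ∈ E ∧ F.cb e ∈ M} ∈ F.S a := F.sup_mem a _ fun e he => hE he.1
  rw [← F.pr_inf h1]
  exact F.pr_le h2 (F.gen_le h hq E hE hM)

end Flt

end Pool.Agent.BPF
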