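import Pool.Agent.Lib.MP_11349d_lc.T.Asm

/-!
# TreeApi: the statements about trees used by the main induction
-/

set_option autoImplicit false

namespace Pool.Agent.BPF

open Cardinal Pool.Agent.CSI

namespace Flt

variable {O Ω B : Type} [LinearOrder O] [WellFoundedLT O] [LinearOrder Ω] [WellFoundedLT Ω]
    [OrderBot O] [OrderBot Ω] [CompleteBooleanAlgebra B] {T : LTree Ω}
    (F : Flt (O := O) (B := B) T)

/-- TASK 1 -/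
theorem ev_T1 (hΩ : IsOm1 Ω) (hO : IsKap O) : ∀ᶠ M in clubF O, ∀ d, (∀ ξ, F.o ξ ∈ M ↔ ξ < d) →
    ∀ (k : ℕ) (W : Nm Ω B k), F.n k W ∈ M → Tr T W → ∀ a, InS F.toDat a W → ∀ q, F.Gen a M q →
      ∀ (y : Finset ℕ) (t : Fin k → ℕ), (∀ i, t i ∈ y) →
        q ⊓ (⨅ ξ, ⨅ _ : ξ < d, W ξ (T.res ξ d t)) ⊓ F.Cap a M d y ≤
          ⨆ V : Nm Ω B k, ⨆ _ : F.n k V ∈ M ∧ InS F.toDat a V, Lg T F.toDat a V ⊓ Sb V W := by
  filter_upwards [F.ev_lg'] with M h d hd k W hW hT a ha q hq y t ht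
  exact h d hd k W hW hT a ha q hq y t ht

/-- TASK 2; `hP` is the statement of `persist` -/
theorem ev_T2 (hΩ : IsOm1 Ω) (hO : IsKap O) {a c : O} (ha : ¬ Lm a) (hc : ¬ Lm c) (hac : a ≤ c)
    (hP : ∀ (k : ℕ) (V : Nm Ω B k), InS F.toDat a V →
      Lg T F.toDat a V ≤ ⨆ V' : Nm Ω B k, ⨆ _ : InS F.toDat c V', Lg T F.toDat c V' ⊓ Sb V' V) :
    ∀ᶠ M in clubF O, ∀ d, (∀ ξ, F.o ξ ∈ M ↔ ξ < d) →
      ∀ (k : ℕ) (V : Nm Ω B k), F.n k V ∈ M → InS F.toDat a V → ∀ q, F.Gen c M q →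
        ∀ y0 e : Finset ℕ, q ⊓ Lg T F.toDat a V ⊓ F.Cap c M d y0 ≤
          ⨆ y : Fin k → ℕ, ⨆ _ : ∀ i, y i ∉ e, V d y ⊓ F.Cap c M d (y0 ∪ Finset.univ.image y) := by
  filter_upwards [F.ev_Tk2 hΩ, ev_mem c] with M h hc d hd k V hV hS q hq y0 e
  exact h d hd c hc a hac k V hV hS (hP k V hS) q hq e y0

/-- captured elements do not belong to the earlier subtrees -/
theorem cap_U (hΩ : IsOm1 Ω) (hO : IsKap O) : ∀ᶠ M in clubF O, ∀ d, (∀ ξ, F.o ξ ∈ M ↔ ξ < d) →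
    ∀ c ∈ M, Lm c → ∀ a, c < a → ∀ y : Finset ℕ, ∀ n ∈ y, ∀ q, F.Gen a M q → q ≤ F.Cap a M d y →
      q ⊓ F.U c d n = ⊥ := by
  filter_upwards [F.cap_Ux] with M h d hd c hc hl a hca y n hn q hq hle
  exact h d hd c hc hl a hca y n hn q hq hle

/-- PERSISTENCE -/
theorem persist (hΩ : IsOm1 Ω) (hO : IsKap O) {a c : O} (ha : ¬ Lm a) (hc : ¬ Lm c) (hac : a < c)
    (h0 : ⊥ < a → F.IH ⊥ a) (h1 : F.IH a c) (k : ℕ) (V : Nm Ω B k) (hV : InS F.toDat a V) :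
    Lg T F.toDat a V ≤ ⨆ V' : Nm Ω B k, ⨆ _ : InS F.toDat c V', Lg T F.toDat c V' ⊓ Sb V' V := by
  exact F.persist' hΩ hac ha hc (F.Dg_of hΩ ha h0) h1 hV

/-- CAPTURE STEP: the induction step from a limit stage to its successor -/
theorem ih_succ_lim (hΩ : IsOm1 Ω) (hO : IsKap O) {a l l' : O} (ha : ¬ Lm a) (hal : a < l) (hl : Lm l)
    (hll : Sc l l') (h0 : F.IH ⊥ l) (h1 : F.IH a l) : F.IH a l' := by
  exact F.ih_succ_limx hΩ hal hl hll h0 h1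

/-- the subtrees `U a` are pairwise almost disjoint -/
theorem U_ad (hΩ : IsOm1 Ω) (hO : IsKap O) {a c : O} (ha : Lm a) (hc : Lm c) (hca : c < a)
    (h0 : F.IH ⊥ a) : ⨆ ξ, ⨅ n, (F.U a ξ n ⊓ F.U c ξ n)ᶜ = ⊤ := by
  obtain ⟨a', hs⟩ := exists_Sc hO a
  have h := F.U_ad' hΩ ha hs (F.NS_of hΩ ha h0) hc hca (fun ξ n => F.U_mem hc hca ξ n)
  simpa only [inf_comm] using h

/-- the subtrees `U a` have elements on all levels -/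
theorem U_unb (hΩ : IsOm1 Ω) (hO : IsKap O) {a : O} (ha : Lm a) (h0 : F.IH ⊥ a) (ξ : Ω) :
    ⨆ n, F.U a ξ n = ⊤ := by
  obtain ⟨a', hs⟩ := exists_Sc hO a
  exact F.U_unb' hΩ ha hs (F.NS_of hΩ ha h0) ξ

theorem U_tree {a : O} (ha : Lm a) (ξ η : Ω) (n : ℕ) (h : ξ ≤ η) :
    F.U a η n ≤ F.U a ξ (T.r ξ η n) := by
  exact F.U_tr ha h n

end Flt

end Pool.Agent.BPF
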